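import Pool.Agent.Helper92_LUR.Defs

set_option autoImplicit false
open Filter Topology Set

namespace LUR

/-- The states of the minimality chain at step `n`. -/
def CState {K : Type} [TopologicalSpace K] (r : ℕ → K → Ordinal.{0}) (Q : Set K → Prop)
    (C0 : Set K) (n : ℕ) : Type :=
  {p : Set K × Set K // p.1 ⊆ C0 ∧ IsClosed p.2 ∧ PMin r Q n p.1 p.2}

theorem chain (hM : MINS) : CHAIN := by
  intro K _ _ r hr hsep Q hQc hQn C0 hC0 f ε hε
  -- the start
  have start : PMin r Q 0 C0 univ :=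
    { mem := hC0
      hit := fun C' _ h => by simpa using hQn C' h
      top := fun C' _ _ => by simp [Ltop]
      eqr := fun _ _ _ _ l hl => absurd hl (Nat.not_lt_zero l)
      low := fun y _ hy => absurd (mem_univ y) hy }
  let s0 : CState r Q C0 0 := ⟨(C0, univ), subset_rfl, isClosed_univ, start⟩
  have stepE : ∀ (n : ℕ) (p : CState r Q C0 n), ∃ p' : CState r Q C0 (n + 1),
      p'.1.1 ⊆ p.1.1 ∧ p'.1.2 ⊆ p.1.2 := by
    intro n p
    obtain ⟨C', Z', h1, h2, h3, h4⟩ := hM K r hr Q hQc n p.1.1 p.1.2 p.2.2.1 p.2.2.2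
    exact ⟨⟨(C', Z'), h1.trans p.2.1, h3, h4⟩, h1, h2⟩
  choose nx hnx1 hnx2 using stepE
  let S : ∀ n, CState r Q C0 n := fun n => Nat.rec s0 (fun n p => nx n p) n
  have hS1 : ∀ n, (S (n + 1)).1.1 ⊆ (S n).1.1 := fun n => hnx1 n (S n)
  have hS2 : ∀ n, (S (n + 1)).1.2 ⊆ (S n).1.2 := fun n => hnx2 n (S n)
  by_contra hcon
  have hbad : ∀ n, ∃ x ∈ (S n).1.1 ∩ (S n).1.2, ∃ y ∈ (S n).1.1 ∩ (S n).1.2,
      ε ≤ |f x - f y| := by
    intro n
    by_contra h
    refine hcon ⟨n, (S n).1.1, (S n).1.2, (S n).2.1, (S n).2.2.2, ?_⟩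
    intro x hx y hy
    by_contra h'
    exact h ⟨x, hx, y, hy, not_lt.mp h'⟩
  let A : ℕ → Set (K × K) := fun n =>
    ((S n).1.1 ∩ (S n).1.2) ×ˢ ((S n).1.1 ∩ (S n).1.2) ∩ {q | ε ≤ |f q.1 - f q.2|}
  have hAcl : ∀ n, IsClosed (A n) := by
    intro n
    have h1 : IsClosed ((S n).1.1 ∩ (S n).1.2) :=
      (hQc _ (S n).2.2.2.mem).inter (S n).2.2.1
    refine (h1.prod h1).inter ?_
    exact isClosed_le continuous_const
      (((f.continuous.comp continuous_fst).sub (f.continuous.comp continuous_snd)).abs)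
  have hAn : ∀ n, (A n).Nonempty := by
    intro n
    obtain ⟨x, hx, y, hy, h⟩ := hbad n
    exact ⟨(x, y), ⟨hx, hy⟩, h⟩
  have hAd : ∀ n, A (n + 1) ⊆ A n := by
    intro n
    refine inter_subset_inter_left _ ?_
    exact prod_mono (inter_subset_inter (hS1 n) (hS2 n)) (inter_subset_inter (hS1 n) (hS2 n))
  obtain ⟨q, hq⟩ := IsCompact.nonempty_iInter_of_sequence_nonempty_isCompact_isClosed A hAd hAn
    (hAcl 0).isCompact hAcl
  rw [mem_iInter] at hq
  have hxy : q.1 = q.2 := by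
    apply hsep
    intro l
    exact (S (l + 1)).2.2.2.eqr q.1 (hq (l + 1)).1.1 q.2 (hq (l + 1)).1.2 l (Nat.lt_succ_self l)
  have h0 : ε ≤ |f q.1 - f q.2| := (hq 0).2
  rw [hxy, sub_self, abs_zero] at h0
  exact absurd hε (not_lt.mpr h0)

end LUR
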