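import Pool.Agent.Helper92_LUR.Defs

set_option autoImplicit false
open Filter Topology Set

namespace LUR

theorem cover (hCh : CHAIN) (hG : GSTEP) : COVER := by
  intro K _ _ ι Λ r hr hsep hΛ s hs f R hR ε hε
  by_contra hnot
  let Q : Set K → Prop := fun C => R C C ∧ ¬ Good s f R ε C
  have hQc : ∀ C, Q C → IsClosed C := fun C h => hR.closedC C C h.1
  have hQn : ∀ C, Q C → C.Nonempty := by
    intro C h
    by_contra hne
    apply h.2
    rw [not_nonempty_iff_eq_empty] at hne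
    exact ⟨∅, finite_empty, fun q hq => absurd hq (notMem_empty q), by simp [hne]⟩
  obtain ⟨n, C, Z, -, hP, hf⟩ :=
    hCh K r hr hsep Q hQc hQn univ ⟨hR.base, hnot⟩ f ε hε
  have hCcl : IsClosed C := hQc C hP.mem
  have hs' : s n C ∈ C ∩ Z := by
    have h := hs n C hCcl (hQn C hP.mem)
    rwa [hP.top C subset_rfl hP.mem] at h
  apply hP.mem.2
  refine hG K ι Λ s f R hR ε hε C n hP.mem.1 ?_
  intro i N hne hRN
  obtain ⟨y, hyV, hyC, hyf⟩ := nonempty_iff_ne_empty.mpr hne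
  have hyZ : y ∉ Z := by
    intro hyZ
    exact absurd (hf y ⟨hyC, hyZ⟩ _ hs') (not_lt.mpr hyf)
  obtain ⟨l, hl, hlow⟩ := hP.low y hyC hyZ
  by_contra hng
  obtain ⟨z, hz, hzZ⟩ := hP.hit (C ∩ closure ((Λ n).O N)) inter_subset_left ⟨hRN, hng⟩
  exact absurd (hlow z hzZ) (not_lt.mpr (hΛ n i N y hyV z hz.2 l hl))

end LUR
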