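import Pool.Agent.Helper92_LUR.Defs

set_option autoImplicit false
open Filter Topology Set

namespace LUR

theorem ltop_closed_nonempty (hM : MAXR) {K : Type} [TopologicalSpace K] [CompactSpace K]
    (r : ℕ → K → Ordinal.{0}) (hr : ∀ l a, IsClosed {x | a ≤ r l x}) (C : Set K)
    (hC : IsClosed C) (hne : C.Nonempty) (n : ℕ) :
    IsClosed (Ltop r n C) ∧ (Ltop r n C).Nonempty := by
  induction n with
  | zero => exact ⟨hC, hne⟩
  | succ n ih =>
    obtain ⟨x, hx, hmax⟩ := hM K (r n) (hr n) (Ltop r n C) ih.1 ih.2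
    have he : Ltop r (n + 1) C = Ltop r n C ∩ {z | r n x ≤ r n z} := by
      ext z
      constructor
      · rintro ⟨hz, h⟩
        exact ⟨hz, h x hx⟩
      · rintro ⟨hz, h⟩
        exact ⟨hz, fun y hy => (hmax y hy).trans h⟩
    refine ⟨?_, ⟨x, hx, hmax⟩⟩
    rw [he]
    exact ih.1.inter (hr n _)

theorem sel (hM : MAXR) : SEL := by
  intro K _ _ _ r hr
  classical
  refine ⟨fun n C => if h : (Ltop r n C).Nonempty then h.some else Classical.arbitrary K, ?_⟩
  intro n C hC hne
  have h := (ltop_closed_nonempty hM r hr C hC hne n).2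
  simp only [h, dif_pos]
  exact h.some_mem

end LUR
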